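import Mathlib
import Pool.Agent.V11128.WeakTr6

namespace Pool.Agent.Results.MP_200d02_pr.WeakTransport

open MeasureTheory Real Set Pool.Agent.V11128.Weak

/-- `T⁻` with the cost `a² |x|²` passes to every smaller constant. -/
theorem TMinus_mono {E : Type*} [NormedAddCommGroup E] [NormedSpace ℝ E]
    [MeasurableSpace E] [BorelSpace E] {μ : Measure E} {a a' : ℝ} (h0 : 0 < a') (h : a' ≤ a)
    (hT : TMinus μ a) : TMinus μ a' := by
  intro f hf hb hi
  refine le_trans ?_ (hT f hf hb hi)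
  apply lintegral_mono
  intro x
  apply ENNReal.ofReal_le_ofReal
  apply exp_le_exp.2
  refine le_Q fun y => ?_
  refine (Q_le hb a' x y).trans ?_
  have h1 : a' ^ 2 ≤ a ^ 2 := pow_le_pow_left₀ h0.le h 2
  have h2 := mul_le_mul_of_nonneg_right h1 (sq_nonneg ‖x - y‖)
  linarith

/-- In every dimension `T⁻(a)` implies `T⁻(a')` and `T⁺(a')` for some `a' > 0`. -/
theorem result (n : ℕ) (μ : Measure (EuclideanSpace ℝ (Fin n))) [IsProbabilityMeasure μ]
    (h1 : Integrable (fun x : EuclideanSpace ℝ (Fin n) => ‖x‖) μ) (a : ℝ) (ha : 0 < a)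
    (hT : TMinus μ a) : ∃ a' : ℝ, 0 < a' ∧ TMinus μ a' ∧ TPlus μ a' := by
  obtain ⟨a', h0, h2, h3⟩ := main ha h1 hT
  exact ⟨a', h0, TMinus_mono h0 h2 hT, h3⟩

end Pool.Agent.Results.MP_200d02_pr.WeakTransport
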